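import Pool.Agent.CPX.Final

set_option autoImplicit false

/-! For generic weights the weighted Hardy space on the unit disc does not have (CP). -/

namespace Pool.Agent.Results.MP_01c4da_an.GenericWeights

open Filter Topology Pool.Agent.CycP

/-- the unit disc -/
def Disc : Set (Fin 1 → ℂ) := Metric.ball 0 1

/-- the monomial `z ^ n` -/
noncomputable def mono (n : ℕ) : MvPolynomial (Fin 1) ℂ := MvPolynomial.X 0 ^ n

/-- the polynomial `1 - z / 2` -/
noncomputable def test : MvPolynomial (Fin 1) ℂ := 1 - MvPolynomial.C (1 / 2) * MvPolynomial.X 0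

section

variable {X : Type} [NormedAddCommGroup X] [InnerProductSpace ℂ X]

/-- `B` is the weighted Hardy space `H²(b)` on the unit disc: the monomials `z ^ n` are orthogonal
in `B` and have the norms `b n`. -/
def Hardy (b : ℕ → ℝ) (B : AnSpace 1 Disc X) : Prop :=
  ∀ m n : ℕ, inner ℂ (B.poly (mono m)) (B.poly (mono n)) = if m = n then ((b n : ℂ)) ^ 2 else 0

/-- A bounded operator `T` from `A` to `B` with `T f = f ∘ φ` for a map `φ` between the maximal
domains, with values in the disc of radius `1/2`, maps the function `1 - z / 2`, which is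
shift-cyclic in `A`, to a function which is not shift-cyclic in `B`. -/
def LosesCyclicity (A B : AnSpace 1 Disc X) : Prop :=
  ∃ (φ : B.maxDomain → A.maxDomain) (T : X →L[ℂ] X),
    (∀ w, ‖(φ w : Fin 1 → ℂ)‖ ≤ 1 / 2) ∧
    (∀ (f : X) (w : B.maxDomain), B.ext (T f) w = A.ext f (φ w)) ∧
    A.Cyclic (A.poly test) ∧ ¬ B.Cyclic (T (A.poly test))

end

/-- `h` is the restriction to the unit disc of a bounded analytic function on the disc of
radius `2`. -/
def HInfTwo (h : (Fin 1 → ℂ) → ℂ) : Prop :=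
  ∃ H : ℂ → ℂ, DifferentiableOn ℂ H (Metric.ball 0 2) ∧
    (∃ M : ℝ, ∀ z ∈ Metric.ball (0 : ℂ) 2, ‖H z‖ ≤ M) ∧ ∀ w ∈ Disc, h w = H (w 0)

/-- The Hardy space `A = H²` and the weighted Hardy space `B = H²(b)` on the unit disc (both given
on one Hilbert space `X`) have the disc as their maximal domain, and a bounded composition operator
from `A` to `B` maps the shift-cyclic function `1 - z / 2` to a function which is not shift-cyclic.
So `B` does not have (CP), although in `B` all multiplier-cyclic functions are shift-cyclic. -/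
def Unstable (b : ℕ → ℝ) : Prop :=
  ∃ (X : Type) (_ : NormedAddCommGroup X) (_ : InnerProductSpace ℂ X) (_ : CompleteSpace X)
    (A B : AnSpace 1 Disc X), Hardy (fun _ => 1) A ∧ Hardy b B ∧
    A.maxDomain = Disc ∧ B.maxDomain = Disc ∧ (∀ g, B.MultCyclic g → B.Cyclic g) ∧
    LosesCyclicity A B ∧ ¬ B.CP

/-- The multipliers of `B = H²(b)` are the bounded analytic functions on the disc of radius `2`. -/
def TwoDisc (b : ℕ → ℝ) : Prop :=
  ∃ (X : Type) (_ : NormedAddCommGroup X) (_ : InnerProductSpace ℂ X) (_ : CompleteSpace X)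
    (B : AnSpace 1 Disc X), Hardy b B ∧ ∀ h, B.IsMultiplier h ↔ HInfTwo h

/-- the weights `b` with `1 ≤ b n ≤ h n` and `b (n + 1) ≤ 2 b n` -/
def Weights (h : ℕ → ℝ) : Set (ℕ → ℝ) := {b | ∀ n, 1 ≤ b n ∧ b n ≤ h n ∧ b (n + 1) ≤ 2 * b n}

/-- Let `h n → ∞`, `h n ≥ 1`. The weights `b` with `limsup b (n + 1) / b n ≤ 1` for which `H²(b)`
does not have (CP) (and all other assertions of `Unstable` hold) are dense in the space of the
weights `1 ≤ b n ≤ h n`, `b (n + 1) ≤ 2 b n`. If `log h n = o(n)`, then for all weights outside a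
meagre subset of this (compact) space `H²(b)` does not have (CP) (and all other assertions of
`Unstable` hold), and its multipliers are the bounded analytic functions on the disc of
radius `2`. -/
theorem result (h : ℕ → ℝ) (h1 : ∀ n, 1 ≤ h n) (h2 : Tendsto h atTop atTop) :
    Dense {b : Weights h |
      (∀ ρ : ℝ, 1 < ρ → ∀ᶠ n in atTop, b.1 (n + 1) ≤ ρ * b.1 n) ∧ Unstable b.1} ∧
    (Tendsto (fun n : ℕ => Real.log (h n) / n) atTop (𝓝 0) →
      ∀ᶠ b in residual (Weights h), Unstable b.1 ∧ TwoDisc b.1) := by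
  have key : ∀ b : ℕ → ℝ, Pool.Agent.CPX.Bad b → Unstable b := by
    rintro b ⟨A, B, φ, T, r1, r2, r3, r4, r5, r6, r7, r8, r9, r10⟩
    exact ⟨_, _, _, inferInstance, A, B, r1, r2, r3, r4, r5, ⟨φ, T, r6, r7, r8, r9⟩, r10⟩
  have key2 : ∀ b : ℕ → ℝ, Pool.Agent.CPG.Good b → TwoDisc b := by
    rintro b ⟨A, B, φ, T, r1, r2, r3, r4, r5, r6, -⟩
    exact ⟨_, _, _, inferInstance, B, r2, r6⟩
  constructor
  · exact (Pool.Agent.CPX.dense2 h h1 h2).mono fun b hb => ⟨hb.1, key _ hb.2⟩
  · intro h3
    filter_upwards [Pool.Agent.CPX.gen2 h h1 h2 h3, Pool.Agent.CPG.gen h h1 h2 h3] with b e1 e2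
    exact ⟨key _ e1, key2 _ e2⟩

end Pool.Agent.Results.MP_01c4da_an.GenericWeights
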