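import Pool.Agent.CycP.Mul

set_option autoImplicit false

/-! A characterisation of (CP) for reflexive spaces of analytic functions whose multipliers are
all bounded analytic functions. -/

namespace Pool.Agent.Results.MP_01c4da_an.MultiplierCriterion

open Pool.Agent.CycP

/-- Let `Y` be a reflexive Banach space of analytic functions on `Ω`, with maximal domain `Ω`,
such that all bounded analytic functions on `Ω` are multipliers of `Y`. Let `Ω` be biholomorphic
to a bounded open set `D` which is balanced (or, more generally, on which every bounded analytic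
function is a bounded pointwise limit of polynomials). Then `Y` has (CP) if and only if every
multiplier-cyclic function in `Y` is shift-cyclic. -/
theorem result {d : ℕ} {Ω : Set (Fin d → ℂ)} {Y : Type} [NormedAddCommGroup Y]
    [NormedSpace ℂ Y] [CompleteSpace Y]
    (hrefl : Function.Surjective (NormedSpace.inclusionInDoubleDual ℂ Y))
    (B : AnSpace d Ω Y) (hmax : B.maxDomain = Ω) (hH : B.HInfMultiplier)
    {D : Set (Fin d → ℂ)} (hDo : IsOpen D) (hDb : Bornology.IsBounded D)
    (hD : Balanced ℂ D ∨ PolyApprox D)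
    {Φ Ψ : (Fin d → ℂ) → Fin d → ℂ}
    (hΦ : AnalyticOnNhd ℂ Φ Ω) (hΨ : AnalyticOnNhd ℂ Ψ D) (hΦD : Set.MapsTo Φ Ω D)
    (hΨΩ : Set.MapsTo Ψ D Ω) (hinv : ∀ w ∈ Ω, Ψ (Φ w) = w) (hinv' : ∀ u ∈ D, Φ (Ψ u) = u) :
    B.CP ↔ ∀ g, B.MultCyclic g → B.Cyclic g := by
  have hD' : PolyApprox D := hD.elim polyApprox_of_balanced id
  exact ⟨fun hcp g hg => multCyclic_of_cp B hrefl hmax hH hDo hDb hD' hΦ hΨ hΦD hΨΩ hinv hinv'
    hcp g hg, fun h => cp_of_multCyclic B hH h⟩

end Pool.Agent.Results.MP_01c4da_an.MultiplierCriterion
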