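import Pool.Agent.CycP.SmI

set_option autoImplicit false

/-! Which complete Pick spaces have (CP). -/

namespace Pool.Agent.Results.MP_01c4da_an.PickCriterion

open Pool.Agent.CycP

/-- Let `Y` be a Hilbert space of analytic functions on the open set `Ω ⊆ ℂ^d` with a complete
Pick kernel `K(z, w) = δ(z) * conj δ(w) / (1 - ∑ n, b n z * conj (b n w))`. The following are
equivalent: `Y` has (CP) and `δ` is shift-cyclic; `Y` has (CP) for spaces `X` of functions of one
variable and `δ` is shift-cyclic; for contractive multipliers `v`, if `(1 - v) g` is shift-cyclic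
then so is `g`, and `δ` is shift-cyclic; every multiplier-cyclic function is shift-cyclic; every
closed shift-invariant subspace of `Y` is invariant under all multipliers; the polynomials are
dense in the multipliers in the strong operator topology. -/
theorem result {d : ℕ} {Ω : Set (Fin d → ℂ)} {Y : Type} [NormedAddCommGroup Y]
    [InnerProductSpace ℂ Y] [CompleteSpace Y] (B : AnSpace d Ω Y) {δ : Y}
    (hB : B.PickWith δ) :
    List.TFAE [B.CP ∧ B.Cyclic δ, B.CPd 1 ∧ B.Cyclic δ, B.OneSub ∧ B.Cyclic δ,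
      ∀ g, B.MultCyclic g → B.Cyclic g, B.Lattice, B.PolyDense] :=
  hB.tfae_six

/-- If the kernel is normalised at a point, that is `δ = 1`, then `Y` has (CP) if and only if
the polynomials are strongly dense in the multipliers. -/
theorem normalised {d : ℕ} {Ω : Set (Fin d → ℂ)} {Y : Type} [NormedAddCommGroup Y]
    [InnerProductSpace ℂ Y] [CompleteSpace Y] (B : AnSpace d Ω Y)
    (hB : B.PickWith (B.poly 1)) : B.CP ↔ B.PolyDense := by
  have h : (B.CP ∧ B.Cyclic (B.poly 1)) ↔ B.PolyDense := (result B hB).out 0 5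
  exact ⟨fun h1 => h.1 ⟨h1, B.cyclic_one⟩, fun h1 => (h.2 h1).1⟩

/-- Complete Pick spaces with a rotation invariant norm have (CP). -/
theorem rotInvariant {d : ℕ} {Ω : Set (Fin d → ℂ)} {Y : Type} [NormedAddCommGroup Y]
    [InnerProductSpace ℂ Y] [CompleteSpace Y] (B : AnSpace d Ω Y) {δ : Y}
    (hB : B.PickWith δ) (hR : B.RotInvariant) : B.CP := by
  have h : (B.CP ∧ B.Cyclic δ) ↔ ∀ g, B.MultCyclic g → B.Cyclic g := (result B hB).out 0 3
  exact (h.2 fun _ hg => hR.graded.cyclic_of_multCyclic hg).1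

/-- For example, (CP) holds if the kernel of `Y` is `1 / (1 - ∑ c n * ⟨z, w⟩ ^ n)` with `c n ≥ 0`
(`c 1 = 1` and all other `c n = 0` for the Drury-Arveson space of the ball). -/
theorem unitary {d : ℕ} {Ω : Set (Fin d → ℂ)} {Y : Type} [NormedAddCommGroup Y]
    [InnerProductSpace ℂ Y] [CompleteSpace Y] (B : AnSpace d Ω Y) (hB : B.UnitaryPick) :
    B.CP := by
  obtain ⟨δ, hδ⟩ := hB.completePick.exists_pickWith
  refine rotInvariant B hδ ?_
  obtain ⟨hΩ, k, c, hk, -, -, hK⟩ := hB
  refine AnSpace.rotInvariant_of_kernel hk hΩ fun a ha z hz w hw => ?_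
  have h1 := hK z hz w hw
  have h2 := hK (a • z) (hΩ a ha z hz) (a • w) (hΩ a ha w hw)
  simp only [AnSpace.sq_smul_smul ha] at h2
  have h3 : (1 - ∑' n, c n * AnSpace.sq z w ^ n : ℂ) ≠ 0 := right_ne_zero_of_mul_eq_one h1
  exact mul_right_cancel₀ h3 (h2.trans h1.symm)

/-- More generally: reflexive Banach spaces `Y` in which every function is `u ψ₀ / (1 - v)` with
multipliers `u`, `v`, `v` power bounded, and `ψ₀` shift-cyclic. -/
theorem smirnov {d : ℕ} {Ω : Set (Fin d → ℂ)} {Y : Type} [NormedAddCommGroup Y]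
    [NormedSpace ℂ Y] [CompleteSpace Y]
    (hrefl : Function.Surjective (NormedSpace.inclusionInDoubleDual ℂ Y)) (B : AnSpace d Ω Y)
    {ψ₀ : Y} (hψ₀ : B.Cyclic ψ₀) (hS : B.Smirnov AnSpace.PowBdd ψ₀) :
    B.CP ↔ ∀ g, B.MultCyclic g → B.Cyclic g :=
  (hS.tfae hrefl (fun _ h => h) hψ₀).out 0 2

end Pool.Agent.Results.MP_01c4da_an.PickCriterion
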