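import Pool.Agent.RadCP.Main2
import Pool.Agent.RadCP.Err2
import Pool.Agent.RadCP.Core2
import Pool.Agent.RadCP.DiniH
import Pool.Agent.RadCP.Sub2

set_option autoImplicit false

/-! Hilbert spaces of analytic functions with radial weights of polynomial growth have (CP). -/

namespace Pool.Agent.Results.MP_01c4da_an.RadialWeights

open Filter Topology Pool.Agent.CycP Pool.Agent.RadCP

/-- Let `H` be a Hilbert space of analytic functions on the balanced open set `Ω` in which
homogeneous polynomials of different degrees are orthogonal and for which all bounded analytic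
functions are multipliers. Let `Y` be a Hilbert space of analytic functions on `Ω` in which
homogeneous polynomials of different degrees are orthogonal and in which the norm of the
homogeneous polynomials of degree `n` is `β n` times the norm of `H`, where `β` has at most
polynomial growth. Then `Y` has (CP), if `∑ n / β n ^ 2 = ∞`, or if `Y` is closed under
products, or if `‖P Q‖ ≤ C √(j + 1) ‖P‖ ‖Q‖` in `H` for homogeneous `P` of degree `j` and
homogeneous `Q` (as in the Hardy spaces of the disc, the bidisc and the ball of `ℂ²`). -/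
theorem result {d : ℕ} {Ω : Set (Fin d → ℂ)} {H Y : Type}
    [NormedAddCommGroup H] [InnerProductSpace ℂ H] [CompleteSpace H]
    [NormedAddCommGroup Y] [InnerProductSpace ℂ Y] [CompleteSpace Y]
    (A : AnSpace d Ω H) (B : AnSpace d Ω Y) (hΩ : Balanced ℂ Ω)
    (hA : A.Graded) (hH : A.HInfMultiplier) (hB : B.Graded)
    (β : ℕ → ℝ) (hβ0 : ∀ n, 0 < β n)
    (hβ : ∀ n P, P.IsHomogeneous n → ‖B.poly P‖ = β n * ‖A.poly P‖)
    (hgr : ∃ (K : ℝ) (κ : ℕ), ∀ n m : ℕ, 1 ≤ n → n ≤ m → β m ≤ K * ((m : ℝ) / n) ^ κ * β n)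
    (hcase : (¬ Summable (fun n : ℕ => (n : ℝ) / β n ^ 2)) ∨
      (∀ x y : Y, ∃ z : Y, ∀ w ∈ Ω, B.fn z w = B.fn x w * B.fn y w) ∨
      ∃ C : ℝ, ∀ (j k : ℕ) (P Q : MvPolynomial (Fin d) ℂ), P.IsHomogeneous j →
        Q.IsHomogeneous k → ‖A.poly (P * Q)‖ ≤ C * √(j + 1) * (‖A.poly P‖ * ‖A.poly Q‖)) :
    B.CP :=
  cp_radial (core2 win (fej win) err2) diniH (sub2 comp_stmt) A B hΩ hA hH hB β hβ0 hβ hgr hcase

/-- The disc, without the space `H`. -/
theorem disc_case {Y : Type} [NormedAddCommGroup Y] [InnerProductSpace ℂ Y] [CompleteSpace Y]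
    (B : AnSpace 1 (Metric.ball 0 1) Y)
    (horth : ∀ m n : ℕ, m ≠ n → inner ℂ (B.poly (MvPolynomial.X 0 ^ m))
      (B.poly (MvPolynomial.X 0 ^ n)) = 0)
    (hgr : ∃ (K : ℝ) (κ : ℕ), ∀ n m : ℕ, 1 ≤ n → n ≤ m →
      ‖B.poly (MvPolynomial.X 0 ^ m)‖ ≤ K * ((m : ℝ) / n) ^ κ * ‖B.poly (MvPolynomial.X 0 ^ n)‖) :
    B.CP :=
  cp_disc (core2 win (fej win) err2) diniH B horth hgr

end Pool.Agent.Results.MP_01c4da_an.RadialWeights
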